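import Pool.Agent.MP_07c73e_al.H96.Defs

/-!
The pure part and the whole image of the closure of the stabiliser of a discretification.
-/

namespace Pool.Agent.MP_07c73e_al.H95

open H96

variable {P : Type} [Group P] [TopologicalSpace P] [IsTopologicalGroup P] [CompactSpace P]
  [TotallyDisconnectedSpace P] {n : ℕ}

/-- The loop automorphisms that send every loop to a conjugate of itself. -/
def pure (l : Fin n → P) : Subgroup (autLac l) where
  carrier := {φ | ∀ i, IsConj (l i) (φ.1 (l i))}
  one_mem' i := IsConj.refl _
  mul_mem' {a b} ha hb i := (ha i).trans (a.1.toMonoidHom.map_isConj (hb i))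
  inv_mem' {a} ha i := by
    simpa using ((a.1⁻¹ : MulAut P).toMonoidHom.map_isConj (ha i)).symm

/-- The image in the outer group of the closure of the stabiliser of `D`. -/
def tAll (l : Fin n → P) (D : Subgroup P) : Subgroup (autLac l ⧸ innLac l) :=
  (closureLac l (stab l D)).map (QuotientGroup.mk' (innLac l))

/-- The pure part of that image. -/
def tPure (l : Fin n → P) (D : Subgroup P) : Subgroup (autLac l ⧸ innLac l) :=
  tAll l D ⊓ (pure l).map (QuotientGroup.mk' (innLac l))

/-- The image in the outer group of the pure elements of the stabiliser of `D` itself. -/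
def tDisc (l : Fin n → P) (D : Subgroup P) : Subgroup (autLac l ⧸ innLac l) :=
  (stab l D ⊓ pure l).map (QuotientGroup.mk' (innLac l))

/-- The plus parts for `D` and `D'` differ, and the pure part for `D'` is not contained in the whole
group for `D`. -/
def Differ (l : Fin n → P) (D D' : Subgroup P) : Prop :=
  tPlus l D' ≠ tPlus l D ∧ ¬ tPure l D' ≤ tAll l D

/-- No group between the discrete pure part and the whole group for `D` is normal. -/
def NoNormal (l : Fin n → P) (D : Subgroup P) : Prop :=
  ∀ N, tDisc l D ≤ N → N ≤ tAll l D → ¬ N.Normal

/-- The discretification: the abstract subgroup generated by the family `l`. -/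
def disc {P : Type} [Group P] {n : ℕ} (l : Fin n → P) : Subgroup P :=
  Subgroup.closure (Set.range l)

/-- A basis in type `(0,4)`: four topological generators whose product is `1`. -/
def IsBasis {P : Type} [Group P] [TopologicalSpace P] [IsTopologicalGroup P] (l : Fin 4 → P) :
    Prop :=
  l 0 * l 1 * l 2 * l 3 = 1 ∧ (disc l).topologicalClosure = ⊤

end Pool.Agent.MP_07c73e_al.H95
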