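import Pool.Agent.MP_07c73e_al.H95.Pair

/-!
Two discretifications with different groups.
-/

namespace Pool.Agent.MP_07c73e_al.H95

open FreeGroup H96 ProfiniteGrp.ProfiniteCompletion

variable {P : Type} [Group P] [TopologicalSpace P] [IsTopologicalGroup P] [CompactSpace P]
  [TotallyDisconnectedSpace P]

lemma pure_le_charKer {n : ℕ} (l : Fin n → P) : pure l ≤ charKer l := by
  intro φ hφ
  choose α hα using fun i => isConj_iff.mp (hφ i)
  exact ⟨1, α, fun i => by simpa [← hα, mul_assoc] using isPow_one (l i)⟩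

lemma stab_le_closure {n : ℕ} (l : Fin n → P) (S : Subgroup (autLac l)) : S ≤ closureLac l S :=
  fun φ hφ U => ⟨φ, hφ, fun x => by simp⟩

theorem exists_pair_of_basis (e : P ≃ₜ* completion (GrpCat.of Pi04)) (l : Fin 4 → P)
    (hrel : l 0 * l 1 * l 2 * l 3 = 1)
    (hgen : (Subgroup.closure (Set.range l)).topologicalClosure = ⊤) : ∃ δ ψ : autLac l,
    δ ∈ stab l (Subgroup.closure (Set.range l)) ∧ δ ∈ pure l ∧ ψ ∈ pure l ∧
      QuotientGroup.mk' _ (ψ * δ * ψ⁻¹) ∉ tAll l (Subgroup.closure (Set.range l)) := by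
  obtain ⟨j, rfl⟩ : ∃ j : F3 →* P, l = fun i => j (loops i) := by
    refine ⟨FreeGroup.lift ![l 0, l 1, l 2], funext fun i => ?_⟩
    fin_cases i
    · simp
    · simp
    · simp
    · simp [eq_inv_of_mul_eq_one_right hrel]
  rw [closure_loops] at hgen ⊢
  exact exists_pair (freeData_of_basis e j hgen)

theorem main (e : P ≃ₜ* completion (GrpCat.of Pi04)) (l : Fin 4 → P)
    (hrel : l 0 * l 1 * l 2 * l 3 = 1)
    (hgen : (Subgroup.closure (Set.range l)).topologicalClosure = ⊤) :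
    (∃ l' : Fin 4 → P, l' 0 * l' 1 * l' 2 * l' 3 = 1 ∧
      (Subgroup.closure (Set.range l')).topologicalClosure = ⊤ ∧ (∀ i, IsConj (l i) (l' i)) ∧
      tPlus l (Subgroup.closure (Set.range l')) ≠ tPlus l (Subgroup.closure (Set.range l)) ∧
      ¬ tPure l (Subgroup.closure (Set.range l')) ≤ tAll l (Subgroup.closure (Set.range l))) ∧
    ¬ (tPlus l (Subgroup.closure (Set.range l))).Normal ∧
    ¬ (tPure l (Subgroup.closure (Set.range l))).Normal ∧
    ∀ N : Subgroup (autLac l ⧸ innLac l),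
      (stab l (Subgroup.closure (Set.range l)) ⊓ pure l).map (QuotientGroup.mk' (innLac l)) ≤ N →
      N ≤ tAll l (Subgroup.closure (Set.range l)) → ¬ N.Normal := by
  obtain ⟨δ, ψ, h1, h2, h3, h4⟩ := exists_pair_of_basis e l hrel hgen
  have key : ∀ N : Subgroup (autLac l ⧸ innLac l),
      (stab l (Subgroup.closure (Set.range l)) ⊓ pure l).map (QuotientGroup.mk' (innLac l)) ≤ N →
      N ≤ tAll l (Subgroup.closure (Set.range l)) → ¬ N.Normal := by
    intro N hN hN' hn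
    refine h4 (hN' ?_)
    rw [_root_.map_mul, _root_.map_mul, _root_.map_inv]
    exact hn.conj_mem _ (hN ⟨δ, ⟨h1, h2⟩, rfl⟩) _
  have hmap : Subgroup.closure (Set.range fun i => ψ.1 (l i)) =
      (Subgroup.closure (Set.range l)).map ψ.1.toMonoidHom := by
    rw [MonoidHom.map_closure, ← Set.range_comp]
    rfl
  have hst : ψ * δ * ψ⁻¹ ∈ stab l (Subgroup.closure (Set.range fun i => ψ.1 (l i))) := by
    have h5 : (Subgroup.closure (Set.range l)).map δ.1.toMonoidHom =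
      Subgroup.closure (Set.range l) := h1
    change Subgroup.map _ _ = _
    rw [hmap]
    conv_rhs => rw [← h5]
    rw [Subgroup.map_map, Subgroup.map_map]
    congr 1
    ext x
    simp
  have hp : ψ * δ * ψ⁻¹ ∈ pure l := mul_mem (mul_mem h3 h2) (inv_mem h3)
  refine ⟨⟨fun i => ψ.1 (l i), ?_, ?_, h3, fun h => h4 ?_, fun h => h4 (h ?_)⟩,
    key _ ?_ inf_le_left, key _ ?_ inf_le_left, key⟩
  · simp only [← _root_.map_mul, hrel, _root_.map_one]
  · rw [hmap, eq_top_iff]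
    intro x _
    obtain ⟨y, rfl⟩ := ψ.1.surjective x
    have hy : y ∈ (Subgroup.closure (Set.range l)).topologicalClosure := hgen ▸ Subgroup.mem_top _
    exact map_mem_closure (f := ψ.1) ψ.2.1 hy fun z hz => ⟨z, hz, rfl⟩
  · have : QuotientGroup.mk' _ (ψ * δ * ψ⁻¹) ∈
        tPlus l (Subgroup.closure (Set.range fun i => ψ.1 (l i))) :=
      ⟨⟨_, stab_le_closure l _ hst, rfl⟩, ⟨_, pure_le_charKer l hp, rfl⟩⟩
    rw [h] at this
    exact this.1
  · exact ⟨⟨_, stab_le_closure l _ hst, rfl⟩, ⟨_, hp, rfl⟩⟩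
  · rintro _ ⟨φ, hφ, rfl⟩
    exact ⟨⟨_, stab_le_closure l _ hφ.1, rfl⟩, ⟨_, pure_le_charKer l hφ.2, rfl⟩⟩
  · rintro _ ⟨φ, hφ, rfl⟩
    exact ⟨⟨_, stab_le_closure l _ hφ.1, rfl⟩, ⟨_, hφ.2, rfl⟩⟩

end Pool.Agent.MP_07c73e_al.H95
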