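import Pool.Agent.MP_07c73e_al.H96.Basis
import Pool.Agent.MP_07c73e_al.H95.Defs

/-!
A pure automorphism which conjugates a Dehn twist out of the closure of the stabiliser.
-/

namespace Pool.Agent.MP_07c73e_al.H95

open FreeGroup H96

variable {P : Type} [Group P] [TopologicalSpace P] [IsTopologicalGroup P] [CompactSpace P]
  [TotallyDisconnectedSpace P] {j : F3 →* P}

theorem exists_pair (h : FreeData j) : ∃ δ ψ : autLac fun i => j (loops i),
    δ ∈ stab (fun i => j (loops i)) j.range ∧ δ ∈ pure (fun i => j (loops i)) ∧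
      ψ ∈ pure (fun i => j (loops i)) ∧
      QuotientGroup.mk' _ (ψ * δ * ψ⁻¹) ∉ tAll (fun i => j (loops i)) j.range := by
  obtain ⟨ρ1, U1, o1, e1, hU1, hl1⟩ := h.exists_lamp rho1 0 rho1_0
  obtain ⟨ρ3, U3, o3, e3, hU3, hl3⟩ := h.exists_lamp rho3 2 rho3_2
  obtain ⟨a3, oa, ea⟩ := h.ext_fin ab3
  obtain ⟨ψ, cψ, a, b, k0, k1, k2, k01, ha, hb, hex⟩ := h.exists_exotic o1 o3 e1 e3
  obtain ⟨D, cD, hD⟩ := h.exists_aut (j.comp (sig2 ^ 2).toMonoidHom) (by
    intro R _ hR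
    have h1 : ∀ w, j ((sig2 ^ 2) w) ∈ R := by
      intro w
      induction w using FreeGroup.induction_on with
      | C1 => simp
      | of i => exact hR i
      | inv_of i h => simpa using h
      | mul x y hx hy => simpa using mul_mem hx hy
    intro i
    have := h1 ((sig2 ^ 2).symm (of i))
    rwa [MulEquiv.apply_symm_apply] at this)
  have d0 : D (j (of 0)) = j (of 0) := by simp [hD, sq]
  have d1 : D (j (of 1)) = j (of 1) * j (of 2) * j (of 1) * (j (of 1) * j (of 2))⁻¹ := by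
    simp [hD, sq, mul_assoc]
  have d2 : D (j (of 2)) = j (of 1) * j (of 2) * (j (of 1))⁻¹ := by simp [hD, sq]
  have cjD : ∀ i, IsConj (j (loops i)) (D (j (loops i))) := by
    intro i
    fin_cases i
    · exact isConj_iff.mpr ⟨1, by simp [d0]⟩
    · exact isConj_iff.mpr ⟨_, d1.symm⟩
    · exact isConj_iff.mpr ⟨_, d2.symm⟩
    · exact isConj_iff.mpr ⟨1, by simp [d0, d1, d2, mul_assoc]⟩
  have cjψ : ∀ i, IsConj (j (loops i)) (ψ (j (loops i))) := by
    intro i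
    fin_cases i
    · exact isConj_iff.mpr ⟨_, k0.symm⟩
    · exact isConj_iff.mpr ⟨_, k1.symm⟩
    · exact isConj_iff.mpr ⟨1, by simp [k2]⟩
    · refine isConj_iff.mpr ⟨1, ?_⟩
      simp only [Fin.reduceFinMk, loops_3, _root_.map_inv, _root_.map_mul, k01, k2]
      simp
  have hchar : ∀ φ : MulAut P, (∀ i, IsConj (j (loops i)) (φ (j (loops i)))) →
      HasChar (fun i => j (loops i)) φ 1 := by
    intro φ hφ
    choose α hα using fun i => isConj_iff.mp (hφ i)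
    exact ⟨1, α, fun i => by simpa [← hα, mul_assoc] using isPow_one (j (loops i))⟩
  let D' : autLac fun i => j (loops i) := ⟨D, cD, 1, hchar D cjD⟩
  let ψ' : autLac fun i => j (loops i) := ⟨ψ, cψ, 1, hchar ψ cjψ⟩
  have hDs : D' ∈ stab (fun i => j (loops i)) j.range := by
    refine le_antisymm ?_ ?_
    · rintro _ ⟨_, ⟨w, rfl⟩, rfl⟩
      exact ⟨_, (hD w).symm⟩
    · rintro _ ⟨w, rfl⟩
      exact ⟨j ((sig2 ^ 2).symm w), ⟨_, rfl⟩, (hD _).trans (congrArg j ((sig2 ^ 2).apply_symm_apply w))⟩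
  refine ⟨D', ψ', hDs, cjD, cjψ, ?_⟩
  rintro ⟨θ, hθ, hθ'⟩
  obtain ⟨g, hg⟩ := QuotientGroup.eq.mp hθ'
  have hη : ψ * D * ψ⁻¹ = θ.1 * MulAut.conj g := by
    rw [hg]
    simp [D', ψ']
  have cjθ : ∀ i, IsConj (j (loops i)) (θ.1 (j (loops i))) := by
    intro i
    have h1 : IsConj (j (loops i)) (ψ⁻¹ (j (loops i))) := by
      simpa using ((ψ⁻¹ : MulAut P).toMonoidHom.map_isConj (cjψ i)).symm
    have h2 : IsConj (j (loops i)) ((ψ * D * ψ⁻¹) (j (loops i))) :=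
      (cjψ i).trans (ψ.toMonoidHom.map_isConj ((cjD i).trans (D.toMonoidHom.map_isConj h1)))
    rw [hη] at h2
    exact h2.trans (θ.1.toMonoidHom.map_isConj (isConj_iff.mpr ⟨g, rfl⟩)).symm
  obtain ⟨φ, hφ, hφ'⟩ := hθ (U1 ⊓ U3 ⊓ kerOpen a3 oa)
  obtain ⟨β, hβ⟩ := h.exists_discrete φ hφ
  have hβ' : ∀ w, (θ.1 (j w))⁻¹ * j (β w) ∈ U1 ⊓ U3 ⊓ kerOpen a3 oa := fun w => hβ w ▸ hφ' _
  obtain ⟨γ, g1, g3⟩ := mem_agree_of_conj β (h.isConj_of_ab3 φ β hβ fun i => by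
    rw [← ea, ← ea, ← eq_of_mem_kerOpen (hβ' _).2]
    exact (isConj_iff_eq.mp (a3.map_isConj (cjθ i))).symm)
  have g1' := (gam_transfer h.dense o1 e1 hU1 hl1 θ.2.1 (cjθ 0) (fun w => (hβ' w).1.1) g1).mul
    (Gam.inner ρ1 _ g)
  have g3' := (gam_transfer h.dense o3 e3 hU3 hl3 θ.2.1 (cjθ 2) (fun w => (hβ' w).1.2) g3).mul
    (Gam.inner ρ3 _ g)
  rw [← hη, mul_one] at g1' g3'
  -- direct computation of the two invariants
  have comm : ∀ z ∈ Subgroup.zpowers (X7 * Y7), z * (X7 * Y7) * z⁻¹ = X7 * Y7 := by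
    rintro _ ⟨n, rfl⟩
    exact mul_inv_eq_iff_eq_mul.mpr (Commute.zpow_self _ n)
  have f1 : Gam ρ1 (j (of 0)) ψ (ρ1 a)⁻¹ := by
    refine ⟨a, 1, k0, fun w => ?_, by simp⟩
    have := hom_eq_of_dense h.dense (f := ρ1.comp ψ.toMonoidHom) (g := ρ1) (o1.preimage cψ) o1
      (hom3_ext (f := (ρ1.comp ψ.toMonoidHom).comp j) (g := ρ1.comp j) (by simp [k0, e1])
        (by
          have := congrArg Inv.inv (comm _ hb)
          simpa [k1, e1, mul_assoc] using this) (by simp [k2]))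
    simpa using DFunLike.congr_fun this w
  have f2 : Gam ρ1 (j (of 0)) D Y7⁻¹ := by
    refine ⟨1, Y7⁻¹, by simp [d0], fun w => ?_, by simp⟩
    have := hom_eq_of_dense h.dense (f := ρ1.comp D.toMonoidHom)
      (g := (MulAut.conj Y7⁻¹).toMonoidHom.comp ρ1) (o1.preimage cD)
      (Subgroup.isOpen_mono (fun x hx => by simpa using hx) o1)
      (hom3_ext (f := (ρ1.comp D.toMonoidHom).comp j)
        (g := ((MulAut.conj Y7⁻¹).toMonoidHom.comp ρ1).comp j) (by simp [d0, e1])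
        (by simp [d1, e1, mul_assoc]) (by simp [d2, e1, mul_assoc]))
    exact DFunLike.congr_fun this w
  have f3 : Gam ρ3 (j (of 2)) (ψ * D * ψ⁻¹) (ρ3 (ψ (j (of 1))))⁻¹ := by
    have h1 : ψ⁻¹ (j (of 2)) = j (of 2) := by
      conv_lhs => rw [← k2]
      simp
    refine ⟨ψ (j (of 1)), 1, by simp [h1, d2, k2], fun w => ?_, by simp⟩
    have := hom_eq_of_dense h.dense (f := (ρ3.comp ψ.toMonoidHom).comp D.toMonoidHom)
      (g := ρ3.comp ψ.toMonoidHom) ((o3.preimage cψ).preimage cD) (o3.preimage cψ)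
      (hom3_ext (f := ((ρ3.comp ψ.toMonoidHom).comp D.toMonoidHom).comp j)
        (g := (ρ3.comp ψ.toMonoidHom).comp j) (by simp [d0])
        (by simp [d1, k2, e3]) (by simp [d2, k2, e3]))
    simpa using DFunLike.congr_fun this (ψ⁻¹ w)
  have u1 := Gam.unique ⟨j (of 2), by simp [e1]⟩ ⟨(j (of 1) * j (of 2))⁻¹, by simp [e1]⟩
    (fun A A' hA => hl1 A A' (by rw [hA, inv_mul_cancel]; exact one_mem _)) ((f1.mul f2).mul f1.inv) g1'
  have u3 := Gam.unique ⟨j (of 0), by simp [e3]⟩ ⟨j (of 1), by simp [e3]⟩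
    (fun A A' hA => hl3 A A' (by rw [hA, inv_mul_cancel]; exact one_mem _)) g3' f3
  set α := (ρ1 a)⁻¹ with hα
  have hY : ρ3 (ψ (j (of 1))) = α * Y7 * α⁻¹ := by
    have t1 : tr7 (ρ3 (ψ (j (of 1)))) = 3 := by
      rw [k1, _root_.map_mul, _root_.map_mul, _root_.map_inv, tr7_conj, e3, rho3_1, tr_Y]
    have t2 : ρ3 (ψ (j (of 1))) ≠ α * Y7 * α⁻¹ * (-1) := by
      intro h1
      rw [h1, tr7_neg, tr7_conj, tr_Y] at t1
      revert t1
      decide
    rcases u1 with u1 | u1 <;> rcases u3 with u3 | u3 <;> rw [u1, inv_eq_iff_eq_inv] at u3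
    · simpa [mul_assoc] using u3
    · exact absurd (by simpa [mul_assoc] using u3) t2
    · exact absurd (by simpa [mul_assoc] using u3) t2
    · simpa [mul_assoc] using u3
  refine hex ⟨α, ?_, hY⟩
  have h1 : ρ3 (ψ (j (of 0))) * ρ3 (ψ (j (of 1))) = X7 * Y7 := by
    rw [← _root_.map_mul, k01, _root_.map_mul, e3, e3, rho3_0, rho3_1]
  rw [hY, ← comm α (inv_mem ha), ← eq_mul_inv_iff_mul_eq] at h1
  rw [h1]
  simp [mul_assoc]

end Pool.Agent.MP_07c73e_al.H95
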